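import Pool.Agent.H66.FA.T

/-!
# Left-invariant Finsler metrics on almost abelian groups: row MOM

The conserved quantities along a trajectory.
-/

set_option autoImplicit false

open Matrix

namespace Pool.Agent.H35.FAB

open Pool.Agent.H66.FA
open Pool.Agent.H63.Fins MeasureTheory Filter Topology

/-- A function with derivative zero at all points of the interval is constant. -/
theorem const_of (f : ℝ → ℝ) (T : ℝ) (h : ∀ s ∈ Set.Ioo (-1 : ℝ) T, HasDerivAt f 0 s)
    (t : ℝ) (ht : t ∈ Set.Ico (0 : ℝ) T) : f t = f 0 := by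
  have hsub : ∀ x ∈ Set.Icc (0 : ℝ) t, x ∈ Set.Ioo (-1 : ℝ) T := by
    intro x hx
    exact ⟨by linarith [hx.1], lt_of_le_of_lt hx.2 ht.2⟩
  refine constant_of_has_deriv_right_zero (a := 0) (b := t) ?_ ?_ t ⟨ht.1, le_refl t⟩
  · intro x hx
    exact (h x (hsub x hx)).continuousAt.continuousWithinAt
  · intro x hx
    exact (h x (hsub x ⟨hx.1, hx.2.le⟩)).hasDerivWithinAt

theorem fderiv2 {n : ℕ} (L : V n → ℝ) (hL : IsML L) (y : V n) (hy : y ≠ 0) :
    HasFDerivAt (fderiv ℝ L) (fderiv ℝ (fderiv ℝ L) y) y := by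
  have h1 : ContDiffAt ℝ (⊤ : ℕ∞) L y :=
    hL.smooth.contDiffAt (isOpen_ne.mem_nhds hy)
  have h2 : ContDiffAt ℝ 1 (fderiv ℝ L) y := by
    apply h1.fderiv_right
    norm_cast
  exact (h2.differentiableAt (by norm_num)).hasFDerivAt

theorem pf_MOM (h1 : T_EUL) (h2 : T_REG) : T_MOM := by
  intro m B E L hL hE γ T hγ t ht
  have hne : ∀ s ∈ Set.Ioo (-1 : ℝ) T, γ s ≠ 0 := fun s hs => (hγ s hs).1
  refine ⟨?_, ?_, ?_⟩
  · apply const_of (fun s => L (γ s)) T _ t ht
    intro s hs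
    obtain ⟨hs0, ξ, hξ, hu⟩ := hγ s hs
    have hd : HasFDerivAt L (fderiv ℝ L (γ s)) (γ s) :=
      ((h2 (m + 1) L hL).2.2.2.2.2.2 (γ s) hs0).1
    have h3 := hd.comp_hasDerivAt s hξ
    have h4 : fderiv ℝ L (γ s) ξ = 0 := by
      obtain ⟨-, e2, e3, -⟩ := h1 (m + 1) L hL (γ s) hs0
      have e4 : d1 L (γ s) ξ = 0 := by
        rw [← e2 ξ, e3 (γ s) ξ, hu (γ s)]
        ring
      exact e4
    rw [h4] at h3
    exact h3
  · intro u hu0
    have hcont : ContinuousOn (fun s => γ s 0) (Set.Ioo (-1 : ℝ) T) := by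
      intro s hs
      obtain ⟨hs0, ξ, hξ, hu⟩ := hγ s hs
      have h3 : ContinuousAt γ s := hξ.continuousAt
      have h4 : ContinuousAt (fun s => γ s 0) s :=
        (continuous_apply (0 : Fin (m + 1))).continuousAt.comp h3
      exact h4.continuousWithinAt
    set S : ℝ → ℝ := fun r => ∫ s in (0 : ℝ)..r, γ s 0 with hS
    have hSd : ∀ r ∈ Set.Ioo (-1 : ℝ) T, HasDerivAt S (γ r 0) r := by
      intro r hr
      have hsub : Set.uIcc (0 : ℝ) r ⊆ Set.Ioo (-1 : ℝ) T := by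
        intro x hx
        rw [Set.mem_uIcc] at hx
        rcases hx with hx | hx
        · exact ⟨by linarith [hx.1], lt_of_le_of_lt hx.2 hr.2⟩
        · refine ⟨lt_of_lt_of_le hr.1 hx.1, lt_of_le_of_lt hx.2 ?_⟩
          exact lt_of_le_of_lt ht.1 ht.2
      exact intervalIntegral.integral_hasDerivAt_right
        ((hcont.mono hsub).intervalIntegrable)
        (hcont.stronglyMeasurableAtFilter isOpen_Ioo r hr)
        (hcont.continuousAt (isOpen_Ioo.mem_nhds hr))
    have key : ∀ v : V (m + 1), v 0 = 0 →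
        d1 L (γ t) (E (S t) v) = d1 L (γ 0) (E (S 0) v) := by
      intro v hv0
      apply const_of (fun s => d1 L (γ s) (E (S s) v)) T _ t ht
      intro s hs
      obtain ⟨hs0, ξ, hξ, hu⟩ := hγ s hs
      have h3 : HasDerivAt (fun r => fderiv ℝ L (γ r)) (fderiv ℝ (fderiv ℝ L) (γ s) ξ) s :=
        (fderiv2 L hL (γ s) hs0).comp_hasDerivAt s hξ
      have h4 : HasDerivAt (fun r => E (S r) v) (γ s 0 • B (E (S s) v)) s :=
        HasDerivAt.scomp s (hE.der (S s) v) (hSd s hs)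
      have h5 := h3.clm_apply h4
      have h6 : (fderiv ℝ (fderiv ℝ L) (γ s) ξ) (E (S s) v) +
          (fderiv ℝ L (γ s)) (γ s 0 • B (E (S s) v)) = 0 := by
        have e1 : (fderiv ℝ (fderiv ℝ L) (γ s) ξ) (E (S s) v) =
            d2 L (γ s) ξ (E (S s) v) := rfl
        rw [e1, hu, hE.e0, hv0, map_smul, smul_eq_mul]
        unfold d1
        ring
      rw [h6] at h5
      exact h5
    have hS0 : S 0 = 0 := by
      rw [hS]
      exact intervalIntegral.integral_same
    have h7 := key (E (-S t) u) (by rw [hE.e0, hu0])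
    rw [← hE.add, add_neg_cancel, hE.zero, hS0, hE.zero] at h7
    exact h7
  · intro hSZ
    apply const_of (fun s => DD L (γ s)) T _ t ht
    intro s hs
    obtain ⟨hs0, ξ, hξ, hu⟩ := hγ s hs
    have h3 : ContDiffAt ℝ (⊤ : ℕ∞) (DD L) (γ s) :=
      ((h2 (m + 1) L hL).2.2.2.2.1).contDiffAt (isOpen_ne.mem_nhds hs0)
    have h4 : HasFDerivAt (DD L) (fderiv ℝ (DD L) (γ s)) (γ s) :=
      (h3.differentiableAt (by simp)).hasFDerivAt
    have h5 := h4.comp_hasDerivAt s hξ
    rw [hSZ (γ s) ξ hs0 hu] at h5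
    exact h5

end Pool.Agent.H35.FAB
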